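import Pool.Agent.R712.PM

set_option autoImplicit false

namespace Pool.Agent.Results.MP_f8e91b_al.EqualTriangularFractional

open Pool.Agent.R712.PM

universe u

/-- Over every field `F` there is a partial matrix `A` (of size `8 × 8`, with specified entries
`0, 1, -1`, namely `tab F`) with `tmr(A) ≥ 3`, `fmr(A) = 3` and `mr(A) ≥ 4`. Hence neither
`tmr(A) < fmr(A) < mr(A)` nor `tmr(A) = fmr(A) = mr(A)`. -/
theorem result (F : Type u) [Field F] : ∃ (m n : ℕ) (A : Fin m → Fin n → Option F),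
    (3 ≤ tmr A ∧ fmr A = 3 ∧ 4 ≤ mr A) ∧
    ¬ (((tmr A : ℝ) < fmr A ∧ fmr A < mr A) ∨ ((tmr A : ℝ) = fmr A ∧ fmr A = mr A)) := by
  have h1 := three_le_tmr F
  have h2 := fmr_eq F
  have h3 := four_le_mr F
  refine ⟨8, 8, tab F, ⟨h1, h2, h3⟩, ?_⟩
  have h1' : (3 : ℝ) ≤ tmr (tab F) := by exact_mod_cast h1
  have h3' : (4 : ℝ) ≤ mr (tab F) := by exact_mod_cast h3
  rintro (⟨h4, -⟩ | ⟨-, h4⟩)
  · rw [h2] at h4
    linarith
  · rw [h2] at h4
    linarith

end Pool.Agent.Results.MP_f8e91b_al.EqualTriangularFractional
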